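import Mathlib

/-!
A distance-regular graph that is not core-complete: the Cartesian square of the
Shrikhande graph (a Doob graph, 256 vertices, the array of the Hamming graph H(4,4)).
-/

namespace Pool.Agent.Results.MP_06b6d5_co.DoobSquare

open SimpleGraph

/-- `X` is connected and there are numbers `b i`, `c i` such that whenever `d(u,v) = i`, the
vertex `v` has exactly `c i` neighbours at distance `i - 1` from `u` and exactly `b i`
neighbours at distance `i + 1` from `u`. -/
def IsDistanceRegular {V : Type*} (X : SimpleGraph V) : Prop :=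
  X.Connected ∧ ∃ b c : ℕ → ℕ, ∀ u v : V,
    {w | X.Adj v w ∧ X.dist u w + 1 = X.dist u v}.ncard = c (X.dist u v) ∧
    {w | X.Adj v w ∧ X.dist u w = X.dist u v + 1}.ncard = b (X.dist u v)

/-- Every endomorphism of `Y` is an automorphism. -/
def IsCore {W : Type*} (Y : SimpleGraph W) : Prop :=
  ∀ f : Y →g Y, ∃ e : Y ≃g Y, ∀ w, e w = f w

/-- `Y` is (isomorphic to) the core of `X`: a core, isomorphic to an induced subgraph of `X`,
to which `X` admits a homomorphism. -/
def IsCoreOf {W V : Type*} (Y : SimpleGraph W) (X : SimpleGraph V) : Prop :=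
  IsCore Y ∧ Nonempty (Y ↪g X) ∧ Nonempty (X →g Y)

/-- The Shrikhande graph: the Cayley graph of `Z4 × Z4` with connection set
`{±(1,0), ±(0,1), ±(1,1)}`. -/
def shrikhande : SimpleGraph (ZMod 4 × ZMod 4) where
  Adj u v := v - u = (1, 0) ∨ v - u = (-1, 0) ∨ v - u = (0, 1) ∨ v - u = (0, -1) ∨
    v - u = (1, 1) ∨ v - u = (-1, -1)
  symm := ⟨by
    intro u v h
    have key : ∀ d : ZMod 4 × ZMod 4, (d = (1, 0) ∨ d = (-1, 0) ∨ d = (0, 1) ∨ d = (0, -1) ∨
      d = (1, 1) ∨ d = (-1, -1)) → (-d = (1, 0) ∨ -d = (-1, 0) ∨ -d = (0, 1) ∨ -d = (0, -1) ∨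
      -d = (1, 1) ∨ -d = (-1, -1)) := by decide
    have := key _ h
    rwa [neg_sub] at this⟩
  loopless := ⟨by
    intro u h
    rw [sub_self] at h
    revert h
    decide⟩

/-- The Doob graph `Sh □ Sh`. -/
abbrev doob : SimpleGraph ((ZMod 4 × ZMod 4) × (ZMod 4 × ZMod 4)) :=
  shrikhande.boxProd shrikhande

/-- The connection set as a decidable predicate. -/
def inS (d : ZMod 4 × ZMod 4) : Prop :=
  d = (1, 0) ∨ d = (-1, 0) ∨ d = (0, 1) ∨ d = (0, -1) ∨ d = (1, 1) ∨ d = (-1, -1)

instance : DecidablePred inS := fun d => by unfold inS; infer_instance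

instance : DecidableRel shrikhande.Adj := fun u v => by
  unfold shrikhande; infer_instance

lemma adj_iff (u v : ZMod 4 × ZMod 4) : shrikhande.Adj u v ↔ inS (v - u) := Iff.rfl

/-- the distance from `0` in the Shrikhande graph -/
def wt (d : ZMod 4 × ZMod 4) : ℕ := if d = 0 then 0 else if inS d then 1 else 2

lemma exists_two (d : ZMod 4 × ZMod 4) (h0 : d ≠ 0) (h1 : ¬ inS d) :
    ∃ e, inS e ∧ inS (d - e) := by
  revert d
  decide

lemma reach (u v : ZMod 4 × ZMod 4) : shrikhande.Reachable u v := by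
  by_cases h0 : v - u = 0
  · have : v = u := sub_eq_zero.mp h0
    subst this
    exact Reachable.refl _
  · by_cases h1 : inS (v - u)
    · exact Adj.reachable h1
    · obtain ⟨e, he1, he2⟩ := exists_two (v - u) h0 h1
      have a1 : shrikhande.Adj u (u + e) := by
        rw [adj_iff]; simpa using he1
      have a2 : shrikhande.Adj (u + e) v := by
        rw [adj_iff]; simpa [sub_sub] using he2
      exact a1.reachable.trans a2.reachable

lemma dist_eq (u v : ZMod 4 × ZMod 4) : shrikhande.dist u v = wt (v - u) := by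
  unfold wt
  split_ifs with h0 h1
  · have : v = u := sub_eq_zero.mp h0
    subst this
    exact dist_self
  · exact dist_eq_one_iff_adj.mpr h1
  · obtain ⟨e, he1, he2⟩ := exists_two (v - u) h0 h1
    have a1 : shrikhande.Adj u (u + e) := by
      rw [adj_iff]; simpa using he1
    have a2 : shrikhande.Adj (u + e) v := by
      rw [adj_iff]; simpa [sub_sub] using he2
    have hle : shrikhande.dist u v ≤ 2 := by
      have := dist_le (Walk.cons a1 (Walk.cons a2 Walk.nil))
      simpa using this
    have hne : u ≠ v := fun h => h0 (by rw [h]; exact sub_self v)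
    have h0' : shrikhande.dist u v ≠ 0 := by
      intro h
      exact hne ((reach u v).dist_eq_zero_iff.mp h)
    have h1' : shrikhande.dist u v ≠ 1 := by
      intro h
      exact h1 (dist_eq_one_iff_adj.mp h)
    omega

lemma dist_doob (u v : (ZMod 4 × ZMod 4) × (ZMod 4 × ZMod 4)) :
    doob.dist u v = wt (v.1 - u.1) + wt (v.2 - u.2) := by
  have h := edist_boxProd (G := shrikhande) (H := shrikhande) u v
  rw [← (reach u.1 v.1).coe_dist_eq_edist, ← (reach u.2 v.2).coe_dist_eq_edist] at h
  rw [SimpleGraph.dist, h, dist_eq, dist_eq]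
  rfl

lemma connected_sh : shrikhande.Connected := by
  have : Nonempty (ZMod 4 × ZMod 4) := ⟨0⟩
  exact ⟨fun u v => reach u v⟩

lemma connected_doob : doob.Connected := connected_sh.boxProd connected_sh

/-- counts in the Shrikhande graph, translated to `0` -/
lemma count_c (d : ZMod 4 × ZMod 4) :
    (Finset.univ.filter (fun e => inS e ∧ wt (d + e) + 1 = wt d)).card = wt d := by
  revert d
  decide

lemma count_b (d : ZMod 4 × ZMod 4) :
    (Finset.univ.filter (fun e => inS e ∧ wt (d + e) = wt d + 1)).card = 3 * (2 - wt d) := by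
  revert d
  decide

lemma wt_le (d : ZMod 4 × ZMod 4) : wt d ≤ 2 := by
  revert d
  decide

/-- Counting neighbours in the product coordinate by coordinate. -/
lemma count_prod (v : (ZMod 4 × ZMod 4) × (ZMod 4 × ZMod 4))
    (P Q : ZMod 4 × ZMod 4 → Prop) [DecidablePred P] [DecidablePred Q]
    (R : (ZMod 4 × ZMod 4) × (ZMod 4 × ZMod 4) → Prop)
    (hP : ∀ e, inS e → (R (v.1 + e, v.2) ↔ P e)) (hQ : ∀ e, inS e → (R (v.1, v.2 + e) ↔ Q e)) :
    {w | doob.Adj v w ∧ R w}.ncard =
      (Finset.univ.filter (fun e => inS e ∧ P e)).card +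
      (Finset.univ.filter (fun e => inS e ∧ Q e)).card := by
  have hset : {w | doob.Adj v w ∧ R w} =
      ((fun e => (v.1 + e, v.2)) '' {e | inS e ∧ P e}) ∪
      ((fun e => (v.1, v.2 + e)) '' {e | inS e ∧ Q e}) := by
    ext ⟨w1, w2⟩
    simp only [Set.mem_ofPred_eq, Set.mem_union, Set.mem_image, Prod.mk.injEq, boxProd_adj,
      adj_iff]
    constructor
    · rintro ⟨(⟨h1, h2⟩ | ⟨h1, h2⟩), hR⟩
      · left
        refine ⟨w1 - v.1, ⟨h1, ?_⟩, by simp, h2⟩
        rw [← hP _ h1]
        simpa [h2] using hR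
      · right
        refine ⟨w2 - v.2, ⟨h1, ?_⟩, h2, by simp⟩
        rw [← hQ _ h1]
        simpa [h2] using hR
    · rintro (⟨e, ⟨he, hPe⟩, h1, h2⟩ | ⟨e, ⟨he, hQe⟩, h1, h2⟩)
      · subst h1 h2
        exact ⟨Or.inl ⟨by simpa using he, rfl⟩, (hP e he).mpr hPe⟩
      · subst h1 h2
        exact ⟨Or.inr ⟨by simpa using he, rfl⟩, (hQ e he).mpr hQe⟩
  have hdisj : Disjoint ((fun e => (v.1 + e, v.2)) '' {e | inS e ∧ P e})
      ((fun e => (v.1, v.2 + e)) '' {e | inS e ∧ Q e}) := by
    rw [Set.disjoint_left]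
    rintro w ⟨e, ⟨he, _⟩, rfl⟩ ⟨e', _, h⟩
    simp only [Prod.mk.injEq] at h
    have : e = 0 := by
      have := h.1
      exact (left_eq_add.mp this)
    subst this
    revert he
    decide
  rw [hset, Set.ncard_union_eq hdisj (Set.toFinite _) (Set.toFinite _),
    Set.ncard_image_of_injective _ (fun a b h => by simpa using h),
    Set.ncard_image_of_injective _ (fun a b h => by simpa using h)]
  rw [Set.ncard_eq_toFinset_card', Set.ncard_eq_toFinset_card']
  congr 1
  · congr 1
    ext e
    simp
  · congr 1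
    ext e
    simp

theorem distanceRegular_doob : IsDistanceRegular doob := by
  refine ⟨connected_doob, fun i => 3 * (4 - i), fun i => i, fun u v => ⟨?_, ?_⟩⟩
  · rw [count_prod v (fun e => wt ((v.1 - u.1) + e) + 1 = wt (v.1 - u.1))
      (fun e => wt ((v.2 - u.2) + e) + 1 = wt (v.2 - u.2)), count_c, count_c, dist_doob]
    · intro e _
      rw [dist_doob, dist_doob]
      have : v.1 + e - u.1 = v.1 - u.1 + e := by abel
      simp only [this]
      omega
    · intro e _
      rw [dist_doob, dist_doob]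
      have : v.2 + e - u.2 = v.2 - u.2 + e := by abel
      simp only [this]
      omega
  · rw [count_prod v (fun e => wt ((v.1 - u.1) + e) = wt (v.1 - u.1) + 1)
      (fun e => wt ((v.2 - u.2) + e) = wt (v.2 - u.2) + 1), count_b, count_b, dist_doob]
    · have h1 := wt_le (v.1 - u.1)
      have h2 := wt_le (v.2 - u.2)
      simp only
      omega
    · intro e _
      rw [dist_doob, dist_doob]
      have : v.1 + e - u.1 = v.1 - u.1 + e := by abel
      simp only [this]
      omega
    · intro e _
      rw [dist_doob, dist_doob]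
      have : v.2 + e - u.2 = v.2 - u.2 + e := by abel
      simp only [this]
      omega

/-- The addition map is a homomorphism from the square to the Shrikhande graph. -/
def addHom : doob →g shrikhande where
  toFun p := p.1 + p.2
  map_rel' := by
    rintro ⟨a1, a2⟩ ⟨b1, b2⟩ h
    rw [boxProd_adj] at h
    rw [adj_iff]
    rcases h with ⟨h, h'⟩ | ⟨h, h'⟩
    · simp only at h h'
      subst h'
      have : b1 + a2 - (a1 + a2) = b1 - a1 := by abel
      rw [this]
      exact h
    · simp only at h h'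
      subst h'
      have : a1 + b2 - (a1 + a2) = b2 - a2 := by abel
      rw [this]
      exact h

/-- The Shrikhande graph as the fibre over `0`. -/
def inclHom : shrikhande ↪g doob := shrikhande.boxProdLeft shrikhande 0

lemma no_k4 : ∀ x, inS x → ∀ y, inS y → inS (y - x) → ∀ z, inS z → inS (z - x) →
    ¬ inS (z - y) := by
  decide

lemma no_hom_k4 (f : (⊤ : SimpleGraph (Fin 4)) →g shrikhande) : False := by
  have h : ∀ i j : Fin 4, i ≠ j → inS (f j - f i) := fun i j hij => f.map_adj hij
  refine no_k4 (f 1 - f 0) (h 0 1 (by decide)) (f 2 - f 0) (h 0 2 (by decide)) ?_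
    (f 3 - f 0) (h 0 3 (by decide)) ?_ ?_
  · simpa using h 1 2 (by decide)
  · simpa using h 1 3 (by decide)
  · simpa using h 2 3 (by decide)

lemma fin3 : ∀ a b c d : Fin 3, a ≠ b → c ≠ a → c ≠ b → d ≠ a → d ≠ b → c = d := by
  decide

/-- The Shrikhande graph contains the Moser spindle, so it is not 3-colourable. -/
lemma not_three : ¬ shrikhande.Colorable 3 := by
  rintro ⟨C⟩
  have e1 : C (1, 1) = C (0, 3) :=
    fin3 (C (0, 0)) (C (1, 0)) _ _ (C.valid (by decide)) (C.valid (by decide))
      (C.valid (by decide)) (C.valid (by decide)) (C.valid (by decide))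
  have e2 : C (1, 1) = C (0, 2) :=
    fin3 (C (0, 1)) (C (1, 2)) _ _ (C.valid (by decide)) (C.valid (by decide))
      (C.valid (by decide)) (C.valid (by decide)) (C.valid (by decide))
  have e3 : C (0, 2) ≠ C (0, 3) := C.valid (by decide)
  exact e3 (e2.symm.trans e1)

theorem not_complete {W : Type*} (Y : SimpleGraph W) (h : IsCoreOf Y doob) : Y ≠ ⊤ := by
  rintro rfl
  obtain ⟨_, ⟨i⟩, ⟨g⟩⟩ := h
  have hfin : Finite W := Finite.of_injective i i.injective
  have := Fintype.ofFinite W
  by_cases hc : Fintype.card W ≤ 3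
  · apply not_three
    have C : shrikhande.Coloring W := g.comp inclHom.toHom
    exact C.colorable.mono hc
  · push Not at hc
    have emb : Nonempty (Fin 4 ↪ W) := by
      apply Function.Embedding.nonempty_of_card_le
      rw [Fintype.card_fin]
      exact hc
    obtain ⟨j⟩ := emb
    exact no_hom_k4 ((addHom.comp i.toHom).comp (Embedding.completeGraph j).toHom)

theorem not_iso {W : Type*} (Y : SimpleGraph W) (h : IsCoreOf Y doob) :
    ¬ Nonempty (doob ≃g Y) := by
  rintro ⟨φ⟩
  obtain ⟨hcore, _, _⟩ := h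
  let f : Y →g Y := (φ.toHom.comp (inclHom.toHom.comp addHom)).comp φ.symm.toHom
  obtain ⟨e, he⟩ := hcore f
  have hf : ∀ p, f (φ p) = φ (inclHom (addHom p)) := by
    intro p
    change φ (inclHom (addHom (φ.symm (φ p)))) = _
    rw [φ.symm_apply_apply]
  have h1 : f (φ ((0, 1), (0, 0))) = f (φ ((0, 0), (0, 1))) := by
    rw [hf, hf]
    rfl
  rw [← he, ← he] at h1
  have h2 := φ.injective (e.injective h1)
  revert h2
  decide

/-- A bijective endomorphism of a finite graph is an automorphism. -/
lemma auto_of_bijective {W : Type*} [Finite W] (Y : SimpleGraph W) (f : Y →g Y)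
    (hf : Function.Bijective f) : ∃ e : Y ≃g Y, ∀ w, e w = f w := by
  let π : Equiv.Perm W := Equiv.ofBijective f hf
  have hπ : ∀ (n : ℕ) a b, Y.Adj a b → Y.Adj ((π ^ n) a) ((π ^ n) b) := by
    intro n
    induction n with
    | zero => intro a b h; simpa using h
    | succ n ih =>
      intro a b h
      rw [pow_succ', Equiv.Perm.mul_apply, Equiv.Perm.mul_apply]
      exact f.map_adj (ih a b h)
  have hfin : IsOfFinOrder π := isOfFinOrder_of_finite π
  have hpos := hfin.orderOf_pos
  refine ⟨⟨π, ?_⟩, fun w => rfl⟩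
  intro a b
  constructor
  · intro h
    have h' := hπ (orderOf π - 1) _ _ h
    have key : ∀ x, (π ^ (orderOf π - 1)) (π x) = x := by
      intro x
      rw [← Equiv.Perm.mul_apply, ← pow_succ, Nat.sub_add_cancel hpos, pow_orderOf_eq_one]
      rfl
    rwa [key, key] at h'
  · intro h
    exact f.map_adj h

/-- Every finite graph has a core. -/
lemma exists_core {V : Type*} [Finite V] (X : SimpleGraph V) :
    ∃ s : Set V, IsCoreOf (X.induce s) X := by
  classical
  have hne : ∃ n : ℕ, ∃ s : Set V, s.ncard = n ∧ Nonempty (X →g X.induce s) := by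
    refine ⟨_, Set.univ, rfl, ⟨⟨fun x => ⟨x, trivial⟩, ?_⟩⟩⟩
    intro a b h
    exact h
  obtain ⟨s, hs, ⟨g⟩⟩ := Nat.find_spec hne
  refine ⟨s, ?_, ⟨Embedding.induce s⟩, ⟨g⟩⟩
  intro f
  apply auto_of_bijective
  rw [← Finite.surjective_iff_bijective]
  let s' : Set V := Set.range (fun x : s => (f x : V))
  have hsub : s' ⊆ s := by
    rintro _ ⟨x, rfl⟩
    exact (f x).2
  have hle : Nat.find hne ≤ s'.ncard := by
    apply Nat.find_min'
    refine ⟨s', rfl, ⟨⟨fun x => ⟨f (g x), ⟨g x, rfl⟩⟩, ?_⟩⟩⟩
    intro a b h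
    exact f.map_adj (g.map_adj h)
  have heq : s' = s := by
    apply Set.eq_of_subset_of_ncard_le hsub
    rw [hs]
    exact hle
  intro y
  have hy : (y : V) ∈ s' := by
    rw [heq]
    exact y.2
  obtain ⟨x, hx⟩ := hy
  exact ⟨x, Subtype.ext hx⟩

/-- The Cartesian square of the Shrikhande graph is distance-regular; it has a core, and every
core of it is neither isomorphic to it nor a complete graph. -/
theorem result :
    IsDistanceRegular (shrikhande.boxProd shrikhande) ∧
    (∃ (W : Type) (Y : SimpleGraph W), Finite W ∧ IsCoreOf Y (shrikhande.boxProd shrikhande)) ∧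
    ∀ (W : Type) (Y : SimpleGraph W), IsCoreOf Y (shrikhande.boxProd shrikhande) →
      ¬ Nonempty (shrikhande.boxProd shrikhande ≃g Y) ∧ Y ≠ ⊤ := by
  refine ⟨distanceRegular_doob, ?_, fun W Y h => ⟨not_iso Y h, not_complete Y h⟩⟩
  obtain ⟨s, hs⟩ := exists_core doob
  exact ⟨s, _, inferInstance, hs⟩

end Pool.Agent.Results.MP_06b6d5_co.DoobSquare
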